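import Pool.Agent.MWE.Stmts

set_option autoImplicit false

namespace Pool.Agent.MWE.H77

open Pool.Agent.Helper14_MV Pool.Agent.Helper2_MV Pool.Agent.MVD

theorem close {a b : ℕ} (hab : a ≠ b) (g : List ℕ) (ha : a ∈ g) (hb : b ∈ g) :
    ∃ g1 c' g2 : List ℕ, a ∉ c' ∧ b ∉ c' ∧
      (g = g1 ++ a :: (c' ++ b :: g2) ∨ g = g1 ++ b :: (c' ++ a :: g2)) := by
  induction g with
  | nil => exact absurd ha List.not_mem_nil
  | cons d g ih =>
    by_cases h1 : a ∈ g
    · by_cases h2 : b ∈ g
      · obtain ⟨g1, c', g2, h3, h4, h5⟩ := ih h1 h2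
        refine ⟨d :: g1, c', g2, h3, h4, ?_⟩
        rcases h5 with rfl | rfl
        · exact Or.inl rfl
        · exact Or.inr rfl
      · have hd : b = d := by
          rcases List.mem_cons.1 hb with h | h
          · exact h
          · exact absurd h h2
        subst hd
        obtain ⟨c', g2, rfl, h3⟩ := List.eq_append_cons_of_mem h1
        exact ⟨[], c', g2, h3, fun h => h2 (by simp [h]), Or.inr rfl⟩
    · have hd : a = d := by
        rcases List.mem_cons.1 ha with h | h
        · exact h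
        · exact absurd h h1
      subst hd
      have h2 : b ∈ g := by
        rcases List.mem_cons.1 hb with h | h
        · exact absurd h (Ne.symm hab)
        · exact h
      obtain ⟨c', g2, rfl, h3⟩ := List.eq_append_cons_of_mem h2
      exact ⟨[], c', g2, fun h => h1 (by simp [h]), h3, Or.inl rfl⟩

theorem inf1 (g1 c' g2 : List ℕ) (a b : ℕ) : c' <:+: g1 ++ a :: (c' ++ b :: g2) :=
  ⟨g1 ++ [a], b :: g2, by simp⟩

theorem loc : LocStmt := by
  intro β p q g r a b hab ha hb
  obtain ⟨g1, c', g2, h1, h2, h3⟩ := close hab g ha hb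
  have hsub : ∀ d ∈ c', d ∈ g := by
    intro d hd
    rcases h3 with rfl | rfl <;> simp [hd]
  constructor
  · intro hm hF
    rcases h3 with rfl | rfl
    · have h4 := hF c' (inf1 g1 c' g2 a b) h1 h2 p (q ++ g1) (g2 ++ r) a b
      have e : ∀ s t : ℕ, p ++ s :: t :: ((q ++ g1) ++ a :: (c' ++ b :: (g2 ++ r))) =
          p ++ s :: t :: (q ++ ((g1 ++ a :: (c' ++ b :: g2)) ++ r)) := by
        intro s t
        simp
      rw [e, e] at h4
      exact h4 fun d hd => hm d (hsub d hd)
    · have h4 := hF c' (inf1 g1 c' g2 b a) h1 h2 p (q ++ g1) (g2 ++ r) b a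
      have e : ∀ s t : ℕ, p ++ s :: t :: ((q ++ g1) ++ b :: (c' ++ a :: (g2 ++ r))) =
          p ++ s :: t :: (q ++ ((g1 ++ b :: (c' ++ a :: g2)) ++ r)) := by
        intro s t
        simp
      rw [e, e] at h4
      refine (h4 fun d hd => ?_).symm
      have h5 := hm d (hsub d hd)
      have hp : (p ++ a :: b :: (q ++ ((g1 ++ b :: (c' ++ a :: g2)) ++ r))).Perm
          (p ++ b :: a :: (q ++ ((g1 ++ b :: (c' ++ a :: g2)) ++ r))) :=
        List.Perm.append_left p (List.Perm.swap b a _)
      rw [← hp.count_eq d]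
      exact h5
  · intro hm hF
    rcases h3 with rfl | rfl
    · have h4 := hF c' (inf1 g1 c' g2 a b) h1 h2 (p ++ g1) (g2 ++ q) r a b
      have e : ∀ s t : ℕ, (p ++ g1) ++ a :: (c' ++ b :: ((g2 ++ q) ++ s :: t :: r)) =
          p ++ ((g1 ++ a :: (c' ++ b :: g2)) ++ (q ++ s :: t :: r)) := by
        intro s t
        simp
      rw [e, e] at h4
      exact h4 fun d hd => hm d (hsub d hd)
    · have h4 := hF c' (inf1 g1 c' g2 b a) h1 h2 (p ++ g1) (g2 ++ q) r b a
      have e : ∀ s t : ℕ, (p ++ g1) ++ b :: (c' ++ a :: ((g2 ++ q) ++ s :: t :: r)) =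
          p ++ ((g1 ++ b :: (c' ++ a :: g2)) ++ (q ++ s :: t :: r)) := by
        intro s t
        simp
      rw [e, e] at h4
      refine (h4 fun d hd => ?_).symm
      have h5 := hm d (hsub d hd)
      have hp : (p ++ ((g1 ++ b :: (c' ++ a :: g2)) ++ (q ++ a :: b :: r))).Perm
          (p ++ ((g1 ++ b :: (c' ++ a :: g2)) ++ (q ++ b :: a :: r))) :=
        List.Perm.append_left p (List.Perm.append_left _ (List.Perm.append_left q
          (List.Perm.swap b a r)))
      rw [← hp.count_eq d]
      exact h5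

end Pool.Agent.MWE.H77
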